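import Mathlib

/-!
# Toric ideals of smooth transportation polytopes and flow polytopes: definitions
-/

set_option autoImplicit false

namespace Pool.Agent.Lib_helper65.T16.Defs

/-- The toric ideal over `k` of the set of lattice points of `P ⊆ ℝ^ι` (the kernel of
`x_u ↦ monomial (u, 1)`, `u ∈ P ∩ ℤ^ι`) is generated by its homogeneous elements of degree 2. -/
def QuadGen {ι : Type} (P : Set (ι → ℝ)) (k : Type) [Field k] : Prop :=
  ∀ φ : MvPolynomial {u : ι → ℤ // (fun i => (u i : ℝ)) ∈ P} k →ₐ[k]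
      AddMonoidAlgebra k ((ι → ℤ) × ℤ),
    (∀ u, φ (MvPolynomial.X u) = AddMonoidAlgebra.single (u.1, (1 : ℤ)) (1 : k)) →
    RingHom.ker φ = Ideal.span {f | f ∈ RingHom.ker φ ∧ f.IsHomogeneous 2}

/-- `P ⊆ ℝ^ι` is smooth: at every vertex `x` of `P` there are a basis `w` of `ℤ^ι` and a part
`I` of this basis such that the cone of `P` at `x` is generated by the `w i`, `i ∈ I` (these are
then the primitive vectors along the edges of `P` at `x`). -/
def Smooth {ι : Type} [Fintype ι] [DecidableEq ι] (P : Set (ι → ℝ)) : Prop :=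
  ∀ x ∈ Set.extremePoints ℝ P, ∃ w : ι → ι → ℤ, IsUnit (Matrix.det (Matrix.of w)) ∧
    ∃ I : Finset ι, ∀ y : ι → ℝ,
      ((∃ t : ℝ, 0 ≤ t ∧ ∃ p ∈ P, y = t • (p - x)) ↔
        (∃ c : ι → ℝ, (∀ i, 0 ≤ c i) ∧ y = ∑ i ∈ I, c i • (fun j => (w i j : ℝ))))

/-- The transportation polytope of all nonnegative real `m × n` matrices with row sums `a i` and
column sums `b j`. -/
def Transportation {m n : ℕ} (a : Fin m → ℕ) (b : Fin n → ℕ) : Set (Fin m × Fin n → ℝ) :=
  {x | (∀ e, 0 ≤ x e) ∧ (∀ i, ∑ j, x (i, j) = a i) ∧ ∀ j, ∑ i, x (i, j) = b j}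

/-- The polyhedron of all nonnegative real flows `x` with divergence `D` on the finite directed
graph with vertex set `V` and set of arcs `A`, the arc `e` going from `s e` to `r e`: for every
vertex `v` the total on the arcs leaving `v` minus the total on the arcs entering `v` is `D v`. -/
def Flows {V A : Type} [Fintype A] [DecidableEq V] (s r : A → V) (D : V → ℤ) : Set (A → ℝ) :=
  {x | (∀ e, 0 ≤ x e) ∧
    ∀ v, ∑ e, (if s e = v then x e else 0) - ∑ e, (if r e = v then x e else 0) = D v}

end Pool.Agent.Lib_helper65.T16.Defs
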