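import Pool.Agent.Lib_helper37.T16.Main
import Pool.Agent.Lib_helper65.T16.Defs

/-!
# Smooth transportation polytopes and flow polytopes have quadratically generated toric ideals

The theorem on flows (`Pool.Agent.T16.quadGen`) is applied here; this file contains the reduction of
smooth transportation polytopes to flows with nondegenerate divergence.
-/

set_option autoImplicit false
set_option linter.unusedSectionVars false

namespace Pool.Agent.Lib_helper65.T16

open Finset

/-! ### Simple cones: irredundant inequalities are independent -/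

section sec_Simple

variable {ι : Type} [Fintype ι] [DecidableEq ι]

/-- The cone of `P` at `x` is generated by the linearly independent vectors `w i`, `i ∈ I`. -/
def ConeGen (P : Set (ι → ℝ)) (x : ι → ℝ) (w : ι → ι → ℝ) (I : Finset ι) : Prop :=
  ∀ y : ι → ℝ, (∃ t : ℝ, 0 ≤ t ∧ ∃ p ∈ P, y = t • (p - x)) ↔
    ∃ c : ι → ℝ, (∀ i, 0 ≤ c i) ∧ y = ∑ i ∈ I, c i • w i

/-- description of the tangent cone of `P = {y ≥ 0, y - x ∈ L}` at `x ∈ P` -/
lemma cone_iff {P : Set (ι → ℝ)} {L : Submodule ℝ (ι → ℝ)} {x : ι → ℝ} (hx : x ∈ P)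
    (hP : ∀ y, y ∈ P ↔ (∀ e, 0 ≤ y e) ∧ y - x ∈ L) (y : ι → ℝ) :
    (∃ t : ℝ, 0 ≤ t ∧ ∃ p ∈ P, y = t • (p - x)) ↔ y ∈ L ∧ ∀ e, x e = 0 → 0 ≤ y e := by
  constructor
  · rintro ⟨t, ht, p, hp, rfl⟩
    refine ⟨L.smul_mem t ((hP p).1 hp).2, fun e he => ?_⟩
    simp only [Pi.smul_apply, Pi.sub_apply, smul_eq_mul, he, sub_zero]
    exact mul_nonneg ht (((hP p).1 hp).1 e)
  · rintro ⟨hy, hy0⟩
    -- a small multiple of `y` can be added to `x`
    have hx0 := ((hP x).1 hx).1
    obtain ⟨T, hT, hT'⟩ : ∃ T : ℝ, 0 < T ∧ ∀ e, 0 ≤ T * x e + y e := by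
      have : ∀ e, ∃ T : ℝ, 0 < T ∧ ∀ T' ≥ T, 0 ≤ T' * x e + y e := by
        intro e
        by_cases he : x e = 0
        · exact ⟨1, one_pos, fun T' _ => by rw [he, mul_zero, zero_add]; exact hy0 e he⟩
        · have he' : 0 < x e := lt_of_le_of_ne (hx0 e) (Ne.symm he)
          refine ⟨|y e| / x e + 1, by positivity, fun T' hT' => ?_⟩
          have h1 : |y e| / x e ≤ T' := by linarith
          have h2 : |y e| ≤ T' * x e := by
            rw [div_le_iff₀ he'] at h1
            exact h1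
          have := neg_abs_le (y e)
          linarith
      choose T h1 h2 using this
      refine ⟨1 + ∑ e, T e, ?_, fun e => h2 e _ ?_⟩
      · have : 0 ≤ ∑ e, T e := Finset.sum_nonneg fun e _ => (h1 e).le
        linarith
      · have : T e ≤ ∑ e, T e := Finset.single_le_sum (f := T) (fun e _ => (h1 e).le) (mem_univ e)
        linarith
    refine ⟨T, hT.le, x + T⁻¹ • y, (hP _).2 ⟨fun e => ?_, ?_⟩, ?_⟩
    · have : x e + T⁻¹ * y e = T⁻¹ * (T * x e + y e) := by field_simp
      simp only [Pi.add_apply, Pi.smul_apply, smul_eq_mul]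
      rw [this]
      exact mul_nonneg (inv_nonneg.2 hT.le) (hT' e)
    · rw [add_sub_cancel_left]
      exact L.smul_mem _ hy
    · rw [add_sub_cancel_left, smul_smul, mul_inv_cancel₀ hT.ne', one_smul]

section abstract

variable {P : Set (ι → ℝ)} {L : Submodule ℝ (ι → ℝ)} {x : ι → ℝ} {w : ι → ι → ℝ} {I : Finset ι}

lemma w_mem (hx : x ∈ P) (hP : ∀ y, y ∈ P ↔ (∀ e, 0 ≤ y e) ∧ y - x ∈ L)
    (hc : ConeGen P x w I) {i : ι} (hi : i ∈ I) : w i ∈ L ∧ ∀ e, x e = 0 → 0 ≤ w i e := by
  rw [← cone_iff hx hP, hc]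
  refine ⟨fun j => if j = i then 1 else 0, fun j => ?_, ?_⟩
  · show (0 : ℝ) ≤ if j = i then 1 else 0
    split_ifs <;> norm_num
  · simp [hi]

/-- coordinates with respect to independent vectors are determined -/
lemma coeff_eq (hw : LinearIndepOn ℝ w (I : Set ι)) {c c' : ι → ℝ}
    (h : ∑ i ∈ I, c i • w i = ∑ i ∈ I, c' i • w i) {i : ι} (hi : i ∈ I) : c i = c' i := by
  have h1 : ∑ i ∈ I, (c i - c' i) • w i = 0 := by
    simp only [sub_smul, Finset.sum_sub_distrib, h, sub_self]
  have := (linearIndepOn_finset_iff.1 hw) (fun i => c i - c' i) h1 i hi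
  exact sub_eq_zero.1 this

/-- Every ray `w i` lies in all the facets but one. -/
lemma exists_facet (hx : x ∈ P) (hP : ∀ y, y ∈ P ↔ (∀ e, 0 ≤ y e) ∧ y - x ∈ L)
    (hw : LinearIndepOn ℝ w (I : Set ι)) (hc : ConeGen P x w I) {i : ι} (hi : i ∈ I) :
    ∃ e, x e = 0 ∧ 0 < w i e ∧ ∀ l ∈ I, l ≠ i → w l e = 0 := by
  by_contra hno
  push Not at hno
  -- for every e there is a small eps
  have key : ∀ e, x e = 0 → ∃ δ : ℝ, 0 < δ ∧ ∀ ε, 0 < ε → ε ≤ δ →
      0 ≤ (∑ l ∈ I.erase i, w l e) - ε * w i e := by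
    intro e he
    by_cases h0 : 0 < w i e
    · obtain ⟨l, hl, hli, hle⟩ := hno e he h0
      have hpos : 0 < w l e := lt_of_le_of_ne ((w_mem hx hP hc hl).2 e he) (Ne.symm hle)
      refine ⟨w l e / w i e, div_pos hpos h0, fun ε _ hε' => ?_⟩
      have h1 : ε * w i e ≤ w l e := by rwa [le_div_iff₀ h0] at hε'
      have h2 : w l e ≤ ∑ l ∈ I.erase i, w l e :=
        Finset.single_le_sum (f := fun l => w l e)
          (fun l hl => (w_mem hx hP hc (mem_of_mem_erase hl)).2 e he) (mem_erase.2 ⟨hli, hl⟩)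
      linarith
    · refine ⟨1, one_pos, fun ε hε _ => ?_⟩
      have h1 : w i e = 0 := le_antisymm (not_lt.1 h0) ((w_mem hx hP hc hi).2 e he)
      rw [h1, mul_zero, sub_zero]
      exact Finset.sum_nonneg fun l hl => (w_mem hx hP hc (mem_of_mem_erase hl)).2 e he
  choose! δ hδ1 hδ2 using key
  obtain ⟨ε, hε, hε'⟩ : ∃ ε : ℝ, 0 < ε ∧ ∀ e, x e = 0 → ε ≤ δ e := by
    rcases (univ.filter fun e => x e = 0).eq_empty_or_nonempty with h | h
    · refine ⟨1, one_pos, fun e he => ?_⟩
      have : e ∈ univ.filter fun e => x e = 0 := by simp [he]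
      rw [h] at this
      simp at this
    · obtain ⟨e0, h0, hmin⟩ := Finset.exists_min_image _ δ h
      simp only [mem_filter, mem_univ, true_and] at h0 hmin
      exact ⟨δ e0, hδ1 e0 h0, fun e he => hmin e he⟩
  have hmem : (∑ l ∈ I.erase i, w l) - ε • w i ∈ L ∧
      ∀ e, x e = 0 → 0 ≤ ((∑ l ∈ I.erase i, w l) - ε • w i) e := by
    refine ⟨L.sub_mem (L.sum_mem fun l hl => (w_mem hx hP hc (mem_of_mem_erase hl)).1)
      (L.smul_mem _ (w_mem hx hP hc hi).1), fun e he => ?_⟩
    simp only [Pi.sub_apply, Finset.sum_apply, Pi.smul_apply, smul_eq_mul]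
    exact hδ2 e he ε hε (hε' e he)
  rw [← cone_iff hx hP, hc] at hmem
  obtain ⟨c, hc0, hceq⟩ := hmem
  have h3 : (∑ l ∈ I.erase i, w l) - ε • w i = ∑ l ∈ I, (if l = i then -ε else 1) • w l := by
    rw [← Finset.add_sum_erase I _ hi]
    have h4 : ∑ l ∈ I.erase i, (if l = i then -ε else 1) • w l = ∑ l ∈ I.erase i, w l :=
      Finset.sum_congr rfl fun l hl => by rw [if_neg (ne_of_mem_erase hl), one_smul]
    rw [h4, if_pos rfl, neg_smul]
    abel
  rw [h3] at hceq
  have := coeff_eq hw hceq hi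
  simp only [if_true] at this
  have := hc0 i
  linarith

/-- Irredundant inequalities of a simple cone: there is a ray on which exactly the given one is
positive. -/
lemma irred (hx : x ∈ P) (hP : ∀ y, y ∈ P ↔ (∀ e, 0 ≤ y e) ∧ y - x ∈ L)
    (hw : LinearIndepOn ℝ w (I : Set ι)) (hc : ConeGen P x w I)
    (z0 : ι → ℝ) (hz0 : z0 ∈ L) (hz0' : ∀ e, x e = 0 → 0 < z0 e ∨ ∀ z ∈ L, z e = 0)
    (E : Set ι) (hE : ∀ e ∈ E, x e = 0 ∧ ∃ z ∈ L, z e < 0 ∧ ∀ f, f ≠ e → x f = 0 → 0 ≤ z f)
    {e : ι} (he : e ∈ E) :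
    ∃ z ∈ L, 0 < z e ∧ ∀ f ∈ E, f ≠ e → z f = 0 := by
  have hfac := fun (i : ι) (hi : i ∈ I) => exists_facet hx hP hw hc hi
  choose! g hg1 hg2 hg3 using hfac
  -- every irredundant inequality is some `g i`
  have hsurj : ∀ e ∈ E, ∃ i ∈ I, g i = e := by
    intro e he
    by_contra hno
    push Not at hno
    obtain ⟨he0, z, hz, hze, hzf⟩ := hE e he
    -- `z` is a combination of the `w i`
    obtain ⟨K, hK, hK'⟩ : ∃ K : ℝ, 0 ≤ K ∧ ∀ f, x f = 0 → 0 ≤ K * z0 f - z f := by
      have : ∀ f, ∃ K : ℝ, 0 ≤ K ∧ ∀ K' ≥ K, x f = 0 → 0 ≤ K' * z0 f - z f := by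
        intro f
        by_cases hf : x f = 0
        · rcases hz0' f hf with h | h
          · refine ⟨|z f| / z0 f, by positivity, fun K' hK' _ => ?_⟩
            have h1 : |z f| ≤ K' * z0 f := by rwa [ge_iff_le, div_le_iff₀ h] at hK'
            have := le_abs_self (z f)
            linarith
          · exact ⟨0, le_rfl, fun K' _ _ => by rw [h z hz, h z0 hz0, mul_zero, sub_zero]⟩
        · exact ⟨0, le_rfl, fun K' _ h => absurd h hf⟩
      choose K h1 h2 using this
      refine ⟨∑ f, K f, Finset.sum_nonneg fun f _ => h1 f, fun f hf => h2 f _ ?_ hf⟩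
      exact Finset.single_le_sum (f := K) (fun e _ => h1 e) (mem_univ f)
    have hA : K • z0 ∈ L ∧ ∀ f, x f = 0 → 0 ≤ (K • z0) f := by
      refine ⟨L.smul_mem _ hz0, fun f hf => ?_⟩
      simp only [Pi.smul_apply, smul_eq_mul]
      rcases hz0' f hf with h | h
      · exact mul_nonneg hK h.le
      · rw [h z0 hz0, mul_zero]
    have hB : K • z0 - z ∈ L ∧ ∀ f, x f = 0 → 0 ≤ (K • z0 - z) f :=
      ⟨L.sub_mem (L.smul_mem _ hz0) hz, fun f hf => by
        simpa only [Pi.sub_apply, Pi.smul_apply, smul_eq_mul] using hK' f hf⟩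
    rw [← cone_iff hx hP, hc] at hA hB
    obtain ⟨c, -, hceq⟩ := hA
    obtain ⟨c', -, hceq'⟩ := hB
    have hzc : z = ∑ i ∈ I, (c i - c' i) • w i := by
      simp only [sub_smul, Finset.sum_sub_distrib]
      rw [← hceq, ← hceq']
      abel
    -- the coefficients are nonnegative
    have hcoef : ∀ i ∈ I, 0 ≤ c i - c' i := by
      intro i hi
      have h1 : z (g i) = (c i - c' i) * w i (g i) := by
        rw [hzc, Finset.sum_apply, Finset.sum_eq_single i]
        · simp only [Pi.smul_apply, smul_eq_mul]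
        · intro l hl hli
          simp only [Pi.smul_apply, smul_eq_mul, hg3 i hi l hl hli, mul_zero]
        · exact fun h => absurd hi h
      have h2 : 0 ≤ z (g i) := hzf (g i) (hno i hi) (hg1 i hi)
      rw [h1] at h2
      by_contra hneg
      push Not at hneg
      have := mul_neg_of_neg_of_pos hneg (hg2 i hi)
      linarith
    have h4 : 0 ≤ z e := by
      rw [hzc, Finset.sum_apply]
      refine Finset.sum_nonneg fun i hi => ?_
      simp only [Pi.smul_apply, smul_eq_mul]
      exact mul_nonneg (hcoef i hi) ((w_mem hx hP hc hi).2 e he0)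
    linarith
  obtain ⟨i, hi, hie⟩ := hsurj e he
  refine ⟨w i, (w_mem hx hP hc hi).1, hie ▸ hg2 i hi, fun f hf hfe => ?_⟩
  obtain ⟨j, hj, hjf⟩ := hsurj f hf
  rw [← hjf]
  refine hg3 j hj i hi ?_
  rintro rfl
  exact hfe (hjf ▸ hie)

end abstract

end sec_Simple

/-! ### Simple transportation polytopes have no equal subsums (up to redundant inequalities) -/

section sec_Transport

variable {R C : Type} [Fintype R] [Fintype C] [DecidableEq R] [DecidableEq C]

/-- the transportation polytope with real margins -/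
def TP (a : R → ℝ) (b : C → ℝ) : Set (R × C → ℝ) :=
  {x | (∀ e, 0 ≤ x e) ∧ (∀ i, ∑ j, x (i, j) = a i) ∧ ∀ j, ∑ i, x (i, j) = b j}

lemma TP_le_row {a : R → ℝ} {b : C → ℝ} {x : R × C → ℝ} (hx : x ∈ TP a b) (e : R × C) :
    x e ≤ a e.1 := by
  rw [← hx.2.1 e.1]
  exact Finset.single_le_sum (f := fun j => x (e.1, j)) (fun j _ => hx.1 (e.1, j)) (mem_univ e.2)

lemma TP_le_col {a : R → ℝ} {b : C → ℝ} {x : R × C → ℝ} (hx : x ∈ TP a b) (e : R × C) :
    x e ≤ b e.2 := by
  rw [← hx.2.2 e.2]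
  exact Finset.single_le_sum (f := fun i => x (i, e.2)) (fun i _ => hx.1 (i, e.2)) (mem_univ e.1)

lemma TP_zero {a : R → ℝ} {b : C → ℝ} {x : R × C → ℝ} (hx : x ∈ TP a b) (e : R × C)
    (h : a e.1 = 0 ∨ b e.2 = 0) : x e = 0 := by
  rcases h with h | h
  · exact le_antisymm (h ▸ TP_le_row hx e) (hx.1 e)
  · exact le_antisymm (h ▸ TP_le_col hx e) (hx.1 e)

lemma TP_compact (a : R → ℝ) (b : C → ℝ) : IsCompact (TP a b) := by
  have h1 : TP a b ⊆ Set.Icc (0 : R × C → ℝ) (fun e => a e.1) := fun x hx =>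
    ⟨fun e => hx.1 e, fun e => TP_le_row hx e⟩
  refine IsCompact.of_isClosed_subset isCompact_Icc ?_ h1
  have h2 : TP a b = (⋂ e, {x | 0 ≤ x e}) ∩ ((⋂ i, {x | ∑ j, x (i, j) = a i}) ∩
      ⋂ j, {x | ∑ i, x (i, j) = b j}) := by
    ext x
    simp [TP]
  rw [h2]
  refine IsClosed.inter ?_ (IsClosed.inter ?_ ?_)
  · exact isClosed_iInter fun e => isClosed_le continuous_const (continuous_apply e)
  · exact isClosed_iInter fun i => isClosed_eq
      (continuous_finsetSum _ fun j _ => continuous_apply (i, j)) continuous_const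
  · exact isClosed_iInter fun j => isClosed_eq
      (continuous_finsetSum _ fun i _ => continuous_apply (i, j)) continuous_const

/-- the directions of the transportation polytope -/
def dirs (a : R → ℝ) (b : C → ℝ) : Submodule ℝ (R × C → ℝ) where
  carrier := {z | (∀ i, ∑ j, z (i, j) = 0) ∧ (∀ j, ∑ i, z (i, j) = 0) ∧
    ∀ e, (a e.1 = 0 ∨ b e.2 = 0) → z e = 0}
  zero_mem' := by simp
  add_mem' := by
    rintro y z ⟨h1, h2, h3⟩ ⟨g1, g2, g3⟩
    refine ⟨fun i => ?_, fun j => ?_, fun e he => ?_⟩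
    · simp only [Pi.add_apply, Finset.sum_add_distrib, h1, g1, add_zero]
    · simp only [Pi.add_apply, Finset.sum_add_distrib, h2, g2, add_zero]
    · simp only [Pi.add_apply, h3 e he, g3 e he, add_zero]
  smul_mem' := by
    rintro c z ⟨h1, h2, h3⟩
    refine ⟨fun i => ?_, fun j => ?_, fun e he => ?_⟩
    · simp only [Pi.smul_apply, smul_eq_mul, ← Finset.mul_sum, h1, mul_zero]
    · simp only [Pi.smul_apply, smul_eq_mul, ← Finset.mul_sum, h2, mul_zero]
    · simp only [Pi.smul_apply, smul_eq_mul, h3 e he, mul_zero]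

lemma TP_iff {a : R → ℝ} {b : C → ℝ} {x : R × C → ℝ} (hx : x ∈ TP a b) (y : R × C → ℝ) :
    y ∈ TP a b ↔ (∀ e, 0 ≤ y e) ∧ y - x ∈ dirs a b := by
  constructor
  · intro hy
    refine ⟨hy.1, fun i => ?_, fun j => ?_, fun e he => ?_⟩
    · simp only [Pi.sub_apply, Finset.sum_sub_distrib, hy.2.1, hx.2.1, sub_self]
    · simp only [Pi.sub_apply, Finset.sum_sub_distrib, hy.2.2, hx.2.2, sub_self]
    · simp only [Pi.sub_apply, TP_zero hy e he, TP_zero hx e he, sub_self]
  · rintro ⟨h0, h1, h2, -⟩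
    refine ⟨h0, fun i => ?_, fun j => ?_⟩
    · have := h1 i
      simp only [Pi.sub_apply, Finset.sum_sub_distrib, hx.2.1] at this
      linarith
    · have := h2 j
      simp only [Pi.sub_apply, Finset.sum_sub_distrib, hx.2.2] at this
      linarith

/-- the relation between the entries of a block of a matrix with zero margins -/
lemma block_rel {z : R × C → ℝ} (h1 : ∀ i, ∑ j, z (i, j) = 0) (h2 : ∀ j, ∑ i, z (i, j) = 0)
    (S : Finset R) (T : Finset C) :
    ∑ i ∈ S, ∑ j ∈ Tᶜ, z (i, j) = ∑ j ∈ T, ∑ i ∈ Sᶜ, z (i, j) := by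
  have e1 : ∑ i ∈ S, ∑ j ∈ T, z (i, j) + ∑ i ∈ S, ∑ j ∈ Tᶜ, z (i, j) = 0 := by
    rw [← Finset.sum_add_distrib]
    refine Finset.sum_eq_zero fun i _ => ?_
    rw [Finset.sum_add_sum_compl, h1]
  have e2 : ∑ j ∈ T, ∑ i ∈ S, z (i, j) + ∑ j ∈ T, ∑ i ∈ Sᶜ, z (i, j) = 0 := by
    rw [← Finset.sum_add_distrib]
    refine Finset.sum_eq_zero fun j _ => ?_
    rw [Finset.sum_add_sum_compl, h2]
  rw [Finset.sum_comm] at e2
  linarith

/-- the product matrix supported on two blocks -/
lemma block_point {a : R → ℝ} {b : C → ℝ} (ha : ∀ i, 0 ≤ a i) (hb : ∀ j, 0 ≤ b j) {N : ℝ}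
    (hN : ∑ i, a i = N) (hN' : ∑ j, b j = N) (S : Finset R) (T : Finset C)
    (hST : ∑ i ∈ S, a i = ∑ j ∈ T, b j) (h0 : 0 < ∑ i ∈ S, a i) (h1 : ∑ i ∈ S, a i < N) :
    ∃ x ∈ TP a b, ∀ i j, (i ∈ S ∧ j ∉ T ∨ i ∉ S ∧ j ∈ T) → x (i, j) = 0 := by
  set m := ∑ i ∈ S, a i with hm
  have hSc : ∑ i ∈ Sᶜ, a i = N - m := by
    have := Finset.sum_add_sum_compl S a
    linarith
  have hTc : ∑ j ∈ Tᶜ, b j = N - m := by
    have := Finset.sum_add_sum_compl T b
    linarith
  refine ⟨fun e => if e.1 ∈ S then (if e.2 ∈ T then a e.1 * b e.2 / m else 0)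
    else (if e.2 ∈ T then 0 else a e.1 * b e.2 / (N - m)), ⟨fun e => ?_, fun i => ?_, fun j => ?_⟩,
    fun i j hij => ?_⟩
  · dsimp only
    have := ha e.1
    have := hb e.2
    have : 0 < N - m := by linarith
    split_ifs <;> positivity
  · dsimp only
    by_cases hi : i ∈ S
    · simp only [hi, if_true]
      rw [← Finset.sum_filter, Finset.filter_mem_eq_inter, Finset.univ_inter, ← Finset.sum_div,
        ← Finset.mul_sum, ← hST]
      field_simp
    · simp only [hi, if_false]
      have : ∀ j, (if j ∈ T then (0 : ℝ) else a i * b j / (N - m)) =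
          if j ∈ Tᶜ then a i * b j / (N - m) else 0 := by
        intro j
        by_cases hj : j ∈ T <;> simp [hj]
      rw [Finset.sum_congr rfl fun j _ => this j, ← Finset.sum_filter, Finset.filter_mem_eq_inter,
        Finset.univ_inter, ← Finset.sum_div, ← Finset.mul_sum, hTc]
      have : N - m ≠ 0 := by linarith
      field_simp
  · dsimp only
    by_cases hj : j ∈ T
    · simp only [hj, if_true]
      rw [← Finset.sum_filter, Finset.filter_mem_eq_inter, Finset.univ_inter, ← Finset.sum_div,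
        ← Finset.sum_mul, ← hm]
      field_simp
    · simp only [hj, if_false]
      have : ∀ i, (if i ∈ S then (0 : ℝ) else a i * b j / (N - m)) =
          if i ∈ Sᶜ then a i * b j / (N - m) else 0 := by
        intro i
        by_cases hi : i ∈ S <;> simp [hi]
      rw [Finset.sum_congr rfl fun i _ => this i, ← Finset.sum_filter, Finset.filter_mem_eq_inter,
        Finset.univ_inter, ← Finset.sum_div, ← Finset.sum_mul, hSc]
      have : N - m ≠ 0 := by linarith
      field_simp
  · rcases hij with ⟨h, h'⟩ | ⟨h, h'⟩ <;> simp [h, h']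

theorem no_block {a : R → ℝ} {b : C → ℝ} (ha : ∀ i, 0 ≤ a i) (hb : ∀ j, 0 ≤ b j) {N : ℝ}
    (hN : ∑ i, a i = N) (hN' : ∑ j, b j = N)
    (hs : ∀ x ∈ Set.extremePoints ℝ (TP a b), ∃ (w : R × C → R × C → ℝ) (I : Finset (R × C)),
      LinearIndepOn ℝ w (I : Set (R × C)) ∧ ConeGen (TP a b) x w I)
    (S : Finset R) (T : Finset C)
    (hST : ∑ i ∈ S, a i = ∑ j ∈ T, b j) (h0 : 0 < ∑ i ∈ S, a i) (h1 : ∑ i ∈ S, a i < N)
    (hr : ∀ i j, (i ∈ S ∧ j ∉ T ∨ i ∉ S ∧ j ∈ T) → a i ≠ 0 → b j ≠ 0 → a i + b j < N) : False := by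
  -- an extreme point with two blocks
  set F : Set (R × C → ℝ) := {x | x ∈ TP a b ∧ ∀ e : R × C,
    (e.1 ∈ S ∧ e.2 ∉ T ∨ e.1 ∉ S ∧ e.2 ∈ T) → x e = 0} with hF
  have hFc : IsCompact F := by
    have : F = TP a b ∩ ⋂ e : R × C, {x | (e.1 ∈ S ∧ e.2 ∉ T ∨ e.1 ∉ S ∧ e.2 ∈ T) → x e = 0} := by
      ext x
      simp [hF]
    rw [this]
    refine (TP_compact a b).inter_right (isClosed_iInter fun e => ?_)
    by_cases he : (e.1 ∈ S ∧ e.2 ∉ T ∨ e.1 ∉ S ∧ e.2 ∈ T)
    · simp only [he, true_imp_iff]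
      exact isClosed_eq (continuous_apply e) continuous_const
    · simp only [he, false_imp_iff]
      exact isClosed_univ
  have hFn : F.Nonempty := by
    obtain ⟨x, hx, hx'⟩ := block_point ha hb hN hN' S T hST h0 h1
    exact ⟨x, hx, fun e he => hx' e.1 e.2 he⟩
  obtain ⟨x, hxF⟩ := hFc.extremePoints_nonempty hFn
  have hxP : x ∈ TP a b := hxF.1.1
  have hx0 : ∀ e : R × C, (e.1 ∈ S ∧ e.2 ∉ T ∨ e.1 ∉ S ∧ e.2 ∈ T) → x e = 0 := hxF.1.2
  have hxext : x ∈ Set.extremePoints ℝ (TP a b) := by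
    refine ⟨hxP, fun y hy z hz hxyz => ?_⟩
    have hyz : ∀ e : R × C, (e.1 ∈ S ∧ e.2 ∉ T ∨ e.1 ∉ S ∧ e.2 ∈ T) → y e = 0 ∧ z e = 0 := by
      intro e he
      obtain ⟨p, q, hp, hq, hpq, rfl⟩ := hxyz
      have h1 := hx0 e he
      simp only [Pi.add_apply, Pi.smul_apply, smul_eq_mul] at h1
      have h2 := mul_nonneg hp.le (hy.1 e)
      have h3 := mul_nonneg hq.le (hz.1 e)
      have h4 : p * y e = 0 := by linarith
      have h5 : q * z e = 0 := by linarith
      exact ⟨(mul_eq_zero.1 h4).resolve_left hp.ne', (mul_eq_zero.1 h5).resolve_left hq.ne'⟩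
    exact hxF.2 ⟨hy, fun e he => (hyz e he).1⟩ ⟨hz, fun e he => (hyz e he).2⟩ hxyz
  obtain ⟨w, I, hw, hc⟩ := hs x hxext
  have hNpos : 0 < N := h0.trans h1
  -- the set of irredundant inequalities
  set E : Set (R × C) := {e | (e.1 ∈ S ∧ e.2 ∉ T ∨ e.1 ∉ S ∧ e.2 ∈ T) ∧ a e.1 ≠ 0 ∧ b e.2 ≠ 0}
    with hE
  -- the interior direction
  set xo : R × C → ℝ := fun e => a e.1 * b e.2 / N with hxo
  have hxoP : xo ∈ TP a b := by
    refine ⟨fun e => div_nonneg (mul_nonneg (ha _) (hb _)) hNpos.le, fun i => ?_, fun j => ?_⟩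
    · simp only [hxo]
      rw [← Finset.sum_div, ← Finset.mul_sum, hN']
      field_simp
    · simp only [hxo]
      rw [← Finset.sum_div, ← Finset.sum_mul, hN]
      field_simp
  have hz0 : xo - x ∈ dirs a b := ((TP_iff hxP xo).1 hxoP).2
  have hz0' : ∀ e, x e = 0 → 0 < (xo - x) e ∨ ∀ z ∈ dirs a b, z e = 0 := by
    intro e he
    by_cases h : a e.1 = 0 ∨ b e.2 = 0
    · exact Or.inr fun z hz => hz.2.2 e h
    · push Not at h
      left
      have h1 : 0 < a e.1 := lt_of_le_of_ne (ha _) (Ne.symm h.1)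
      have h2 : 0 < b e.2 := lt_of_le_of_ne (hb _) (Ne.symm h.2)
      simp only [Pi.sub_apply, he, sub_zero, hxo]
      positivity
  -- irredundance
  have hirr : ∀ e ∈ E, x e = 0 ∧
      ∃ z ∈ dirs a b, z e < 0 ∧ ∀ f, f ≠ e → x f = 0 → 0 ≤ z f := by
    rintro ⟨p, q⟩ ⟨hpq, hap, hbq⟩
    simp only at hpq hap hbq
    refine ⟨hx0 _ hpq, ?_⟩
    have hlt := hr p q hpq hap hbq
    set y : R × C → ℝ := fun e => if e.1 = p then (if e.2 = q then -(N - a p - b q) else b e.2)
      else (if e.2 = q then a e.1 else 0) with hy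
    have hyr : ∀ i, ∑ j, y (i, j) = a i := by
      intro i
      simp only [hy]
      by_cases hi : i = p
      · simp only [hi, if_true]
        rw [← Finset.add_sum_erase _ _ (mem_univ q)]
        simp only [if_true]
        rw [Finset.sum_congr rfl (g := b) fun j hj => if_neg (ne_of_mem_erase hj)]
        have := Finset.add_sum_erase univ b (mem_univ q)
        linarith
      · simp only [hi, if_false, Finset.sum_ite_eq', mem_univ, if_true]
    have hyc : ∀ j, ∑ i, y (i, j) = b j := by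
      intro j
      simp only [hy]
      by_cases hj : j = q
      · simp only [hj, if_true]
        rw [← Finset.add_sum_erase _ _ (mem_univ p)]
        simp only [if_true]
        rw [Finset.sum_congr rfl (g := a) fun i hi => if_neg (ne_of_mem_erase hi)]
        have := Finset.add_sum_erase univ a (mem_univ p)
        linarith
      · simp only [hj, if_false, Finset.sum_ite_eq', mem_univ, if_true]
    refine ⟨y - x, ⟨fun i => ?_, fun j => ?_, fun e he => ?_⟩, ?_, fun f hf hf0 => ?_⟩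
    · simp only [Pi.sub_apply, Finset.sum_sub_distrib, hyr, hxP.2.1, sub_self]
    · simp only [Pi.sub_apply, Finset.sum_sub_distrib, hyc, hxP.2.2, sub_self]
    · simp only [Pi.sub_apply, TP_zero hxP e he, sub_zero, hy]
      by_cases h1 : e.1 = p
      · have hb0 : b e.2 = 0 := he.resolve_left (h1 ▸ hap)
        have h2 : e.2 ≠ q := fun h => hbq (h ▸ hb0)
        rw [if_pos h1, if_neg h2, hb0]
      · rw [if_neg h1]
        by_cases h2 : e.2 = q
        · rw [if_pos h2]
          exact he.resolve_right (h2 ▸ hbq)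
        · rw [if_neg h2]
    · simp only [Pi.sub_apply, hx0 (p, q) hpq, hy, if_true]
      linarith
    · simp only [Pi.sub_apply, hf0, sub_zero, hy]
      split_ifs with h1 h2 h3
      · exact absurd (Prod.ext h1 h2) hf
      · exact hb _
      · exact ha _
      · exact le_rfl
  -- pick an entry of the first block
  obtain ⟨p, hpS, hap⟩ : ∃ p ∈ S, a p ≠ 0 := by
    by_contra h
    push Not at h
    rw [Finset.sum_eq_zero h] at h0
    exact lt_irrefl _ h0
  obtain ⟨q, hqT, hbq⟩ : ∃ q ∈ Tᶜ, b q ≠ 0 := by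
    by_contra h
    push Not at h
    have h2 := Finset.sum_add_sum_compl T b
    rw [Finset.sum_eq_zero h] at h2
    linarith
  have hqT' : q ∉ T := by simpa using hqT
  have hpqE : (p, q) ∈ E := ⟨Or.inl ⟨hpS, hqT'⟩, hap, hbq⟩
  obtain ⟨z, hz, hzpos, hzE⟩ := irred hxP (TP_iff hxP) hw hc (xo - x) hz0 hz0' E hirr hpqE
  have hzero : ∀ i j, (i ∈ S ∧ j ∉ T ∨ i ∉ S ∧ j ∈ T) → (i, j) ≠ (p, q) → z (i, j) = 0 := by
    intro i j hij hne
    by_cases h : a i = 0 ∨ b j = 0
    · exact hz.2.2 (i, j) h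
    · push Not at h
      exact hzE (i, j) ⟨hij, h⟩ hne
  have hrel := block_rel hz.1 hz.2.1 S T
  have h3 : ∑ j ∈ T, ∑ i ∈ Sᶜ, z (i, j) = 0 := by
    refine Finset.sum_eq_zero fun j hj => Finset.sum_eq_zero fun i hi => ?_
    have hi' : i ∉ S := by simpa using hi
    refine hzero i j (Or.inr ⟨hi', hj⟩) ?_
    rintro h
    have h5 : i = p := (Prod.ext_iff.1 h).1
    exact hi' (h5 ▸ hpS)
  have h4 : ∑ i ∈ S, ∑ j ∈ Tᶜ, z (i, j) = z (p, q) := by
    rw [Finset.sum_eq_single p, Finset.sum_eq_single q]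
    · intro j hj hjq
      have hj' : j ∉ T := by simpa using hj
      exact hzero p j (Or.inl ⟨hpS, hj'⟩) fun h => hjq (Prod.ext_iff.1 h).2
    · exact fun h => absurd hqT h
    · intro i hi hip
      refine Finset.sum_eq_zero fun j hj => ?_
      have hj' : j ∉ T := by simpa using hj
      exact hzero i j (Or.inl ⟨hi, hj'⟩) fun h => hip (Prod.ext_iff.1 h).1
    · exact fun h => absurd hpS h
  rw [h3, h4] at hrel
  exact hzpos.ne' hrel

end sec_Transport

/-! ### Transfer of quadratic generation along lattice isomorphisms -/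

section sec_Transfer

/-- the kernel of `x_a ↦ monomial (v a)` is generated by quadrics -/
def QG (k : Type) [Field k] {α G : Type} [AddCommGroup G] (v : α → G) : Prop :=
  ∀ φ : MvPolynomial α k →ₐ[k] AddMonoidAlgebra k G,
    (∀ u, φ (MvPolynomial.X u) = AddMonoidAlgebra.single (v u) (1 : k)) →
    RingHom.ker φ = Ideal.span {f | f ∈ RingHom.ker φ ∧ f.IsHomogeneous 2}

theorem QG.transfer {k : Type} [Field k] {α β G H : Type} [AddCommGroup G] [AddCommGroup H]
    (v : α → G) (v' : β → H) (e : α ≃ β) (F : G →+ H) (F' : H →+ G) (hF : ∀ a, F (v a) = v' (e a))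
    (hF' : ∀ a, F' (v' (e a)) = v a) (h : QG k v') : QG k v := by
  intro φ hφ
  set φ' : MvPolynomial β k →ₐ[k] AddMonoidAlgebra k H :=
    MvPolynomial.aeval (fun b => AddMonoidAlgebra.single (v' b) (1 : k)) with hφ'
  have h1 : ∀ u, φ' (MvPolynomial.X u) = AddMonoidAlgebra.single (v' u) (1 : k) := by
    intro u; simp [hφ']
  have hk := h φ' h1
  have c1 : (φ'.comp (MvPolynomial.rename e)) = (AddMonoidAlgebra.mapDomainAlgHom k k F).comp φ := by
    apply MvPolynomial.algHom_ext
    intro u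
    simp only [AlgHom.comp_apply, MvPolynomial.rename_X, h1, hφ, ← hF]
    exact (AddMonoidAlgebra.mapDomain_single (f := F)).symm
  have c2 : φ = (AddMonoidAlgebra.mapDomainAlgHom k k F').comp (φ'.comp (MvPolynomial.rename e)) := by
    apply MvPolynomial.algHom_ext
    intro u
    simp only [AlgHom.comp_apply, MvPolynomial.rename_X, h1, hφ, ← hF']
    exact (AddMonoidAlgebra.mapDomain_single (f := F')).symm
  have hker : ∀ f, f ∈ RingHom.ker φ ↔ MvPolynomial.rename e f ∈ RingHom.ker φ' := by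
    intro f
    rw [RingHom.mem_ker, RingHom.mem_ker]
    constructor
    · intro hf
      have := congrArg (fun ψ => ψ f) c1
      simp only [AlgHom.comp_apply] at this
      rw [this, hf, map_zero]
    · intro hf
      rw [c2]
      simp only [AlgHom.comp_apply]
      rw [hf, map_zero]
  apply le_antisymm
  · intro f hf
    rw [hker, hk] at hf
    have h2 := Ideal.mem_map_of_mem (MvPolynomial.rename e.symm : MvPolynomial β k →ₐ[k] _) hf
    rw [Ideal.map_span] at h2
    have h3 : (MvPolynomial.rename e.symm : MvPolynomial β k →ₐ[k] _) (MvPolynomial.rename e f) = f := by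
      rw [MvPolynomial.rename_rename]
      simp
    rw [h3] at h2
    refine Ideal.span_mono ?_ h2
    rintro _ ⟨g, ⟨hg1, hg2⟩, rfl⟩
    refine ⟨?_, MvPolynomial.IsHomogeneous.rename_isHomogeneous hg2⟩
    rw [hker]
    have h4 : (MvPolynomial.rename e : MvPolynomial α k →ₐ[k] _)
        ((MvPolynomial.rename e.symm : MvPolynomial β k →ₐ[k] _) g) = g := by
      rw [MvPolynomial.rename_rename]
      simp
    rw [h4]
    exact hg1
  · rw [Ideal.span_le]
    exact fun f hf => hf.1

/-- the case of at most one point -/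
theorem QG.of_subsingleton {k : Type} [Field k] {α G : Type} [AddCommGroup G] [Subsingleton α]
    (v : α → G × ℤ) (hv : ∀ a, (v a).2 = 1) : QG k v := by
  classical
  intro φ hφ
  suffices hinj : ∀ f, φ f = 0 → f = 0 by
    apply le_antisymm
    · intro f hf
      rw [hinj f hf]
      exact Ideal.zero_mem _
    · rw [Ideal.span_le]
      exact fun f hf => hf.1
  intro f hf
  rcases isEmpty_or_nonempty α with hα | ⟨⟨a⟩⟩
  · obtain ⟨c, rfl⟩ := MvPolynomial.C_surjective (R := k) α f
    rw [← MvPolynomial.algebraMap_eq, AlgHom.commutes] at hf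
    have : c = 0 := by
      have h1 := congrArg (fun g => g.coeff (0 : G × ℤ)) hf
      simpa [AddMonoidAlgebra.coe_algebraMap] using h1
    rw [this, map_zero]
  · -- one variable
    have hu : ∀ b : α, b = a := fun b => Subsingleton.elim _ _
    by_contra hne
    obtain ⟨d, hd⟩ := MvPolynomial.ne_zero_iff.1 hne
    have h2 : ∀ d : α →₀ ℕ, ∀ c : k, φ (MvPolynomial.monomial d c) =
        AddMonoidAlgebra.single (d a • v a) c := by
      intro d c
      have : MvPolynomial.monomial d c = MvPolynomial.C c * MvPolynomial.X a ^ (d a) := by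
        rw [MvPolynomial.C_mul_X_pow_eq_monomial]
        have h0 : Finsupp.single a (d a) = d := Finsupp.ext fun b => by rw [hu b]; simp
        rw [h0]
      rw [this, map_mul, map_pow, hφ, ← MvPolynomial.algebraMap_eq, AlgHom.commutes,
        AddMonoidAlgebra.single_pow, one_pow]
      rw [← Algebra.smul_def, AddMonoidAlgebra.smul_single, smul_eq_mul, mul_one]
    have h3 : (φ f).coeff (d a • v a) = f.coeff d := by
      conv_lhs => rw [f.as_sum, map_sum, AddMonoidAlgebra.coeff_sum, Finsupp.finsetSum_apply]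
      rw [Finset.sum_eq_single d]
      · rw [h2, AddMonoidAlgebra.coeff_single, Finsupp.single_eq_same]
      · intro d' _ hd'
        rw [h2, AddMonoidAlgebra.coeff_single, Finsupp.single_apply, if_neg]
        intro he
        apply hd'
        refine Finsupp.ext fun b => ?_
        rw [hu b]
        have := congrArg Prod.snd he
        simpa [hv] using this
      · intro hd'
        rw [h2, MvPolynomial.notMem_support_iff.1 hd', AddMonoidAlgebra.single_zero]
        rfl
    rw [hf] at h3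
    exact hd h3.symm

end sec_Transfer

/-! ### From transportation polytopes to flows; the 2 x 2 case -/

section sec_Reduce

/-- integer flows with divergence `D` -/
def IsFlow {V A : Type} [Fintype A] [DecidableEq V] (s r : A → V) (D : V → ℤ) (u : A → ℤ) : Prop :=
  (∀ a, 0 ≤ u a) ∧
    ∀ v, (∑ a, u a * ((if s a = v then 1 else 0) - (if r a = v then 1 else 0))) = D v

/-- the theorem on flows, used as a hypothesis in this file -/
def FlowQG (k : Type) [Field k] : Prop :=
  ∀ (V A : Type) [Fintype V] [DecidableEq V] [Fintype A] [DecidableEq A] (s r : A → V) (D : V → ℤ)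
    (t h : V), t ≠ h → (∀ S : Finset V, S.Nonempty → t ∉ S → h ∉ S → ∑ v ∈ S, D v ≠ 0) →
    QG k (fun u : {u : A → ℤ // IsFlow s r D u} => (u.1, (1 : ℤ)))

lemma sum_sub {C M : Type} [Fintype C] [AddCommMonoid M] (p : C → Prop) [DecidablePred p]
    (f : C → M) (h : ∀ j, ¬ p j → f j = 0) : ∑ j, f j = ∑ j : {j // p j}, f j.1 := by
  rw [← Finset.sum_subtype (univ.filter p) (by simp) f, Finset.sum_filter]
  refine Finset.sum_congr rfl fun j _ => ?_
  by_cases hj : p j
  · rw [if_pos hj]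
  · rw [if_neg hj, h j hj]

variable {R C : Type} [Fintype R] [Fintype C] [DecidableEq R] [DecidableEq C]

/-- integer matrices with margins `α`, `β` as flows -/
lemma isFlow_bip (α : R → ℤ) (β : C → ℤ) (u : R × C → ℤ) :
    IsFlow (V := R ⊕ C) (fun e => Sum.inl e.1) (fun e => Sum.inr e.2)
      (Sum.elim α fun j => -β j) u ↔
      (∀ e, 0 ≤ u e) ∧ (∀ i, ∑ j, u (i, j) = α i) ∧ ∀ j, ∑ i, u (i, j) = β j := by
  have h1 : ∀ i, (∑ e : R × C, u e * ((if (Sum.inl e.1 : R ⊕ C) = Sum.inl i then 1 else 0) -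
      (if (Sum.inr e.2 : R ⊕ C) = Sum.inl i then 1 else 0))) = ∑ j, u (i, j) := by
    intro i
    rw [Fintype.sum_prod_type, Finset.sum_eq_single i]
    · simp
    · intro i' _ hi'
      simp [hi']
    · simp
  have h2 : ∀ j, (∑ e : R × C, u e * ((if (Sum.inl e.1 : R ⊕ C) = Sum.inr j then 1 else 0) -
      (if (Sum.inr e.2 : R ⊕ C) = Sum.inr j then 1 else 0))) = - ∑ i, u (i, j) := by
    intro j
    rw [Fintype.sum_prod_type_right, Finset.sum_eq_single j]
    · simp
    · intro j' _ hj'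
      simp [hj']
    · simp
  constructor
  · rintro ⟨h0, h⟩
    refine ⟨h0, fun i => ?_, fun j => ?_⟩
    · have := h (Sum.inl i)
      rwa [h1] at this
    · have := h (Sum.inr j)
      rw [h2] at this
      simp only [Sum.elim_inr] at this
      linarith
  · rintro ⟨h0, h3, h4⟩
    refine ⟨h0, fun v => ?_⟩
    rcases v with i | j
    · rw [h1]; exact h3 i
    · rw [h2, h4]; rfl

/-- integer matrices with margins `a`, `b` -/
def IsMat (a : R → ℕ) (b : C → ℕ) (u : R × C → ℤ) : Prop :=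
  (∀ e, 0 ≤ u e) ∧ (∀ i, ∑ j, u (i, j) = a i) ∧ ∀ j, ∑ i, u (i, j) = b j

lemma isMat_zero {a : R → ℕ} {b : C → ℕ} {u : R × C → ℤ} (hu : IsMat a b u) (e : R × C)
    (h : a e.1 = 0 ∨ b e.2 = 0) : u e = 0 := by
  rcases h with h | h
  · have h1 := hu.2.1 e.1
    rw [h, Nat.cast_zero] at h1
    have := (Finset.sum_eq_zero_iff_of_nonneg (fun j _ => hu.1 (e.1, j))).1 h1 e.2 (mem_univ _)
    exact this
  · have h1 := hu.2.2 e.2
    rw [h, Nat.cast_zero] at h1
    have := (Finset.sum_eq_zero_iff_of_nonneg (fun i _ => hu.1 (i, e.2))).1 h1 e.1 (mem_univ _)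
    exact this

lemma isMat_iff {a : R → ℕ} {b : C → ℕ} {u : R × C → ℤ} :
    (fun e => (u e : ℝ)) ∈ TP (fun i => (a i : ℝ)) (fun j => (b j : ℝ)) ↔ IsMat a b u := by
  simp only [TP, Set.mem_ofPred_eq, IsMat]
  refine and_congr ?_ (and_congr ?_ ?_)
  · exact forall_congr' fun e => by exact_mod_cast Iff.rfl
  · exact forall_congr' fun i => by
      constructor
      · intro h; exact_mod_cast h
      · intro h; exact_mod_cast h
  · exact forall_congr' fun j => by
      constructor
      · intro h; exact_mod_cast h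
      · intro h; exact_mod_cast h

/-- the redundant entries -/
def Red (a : R → ℕ) (b : C → ℕ) (i : R) (j : C) : Prop :=
  a i ≠ 0 ∧ b j ≠ 0 ∧ ∑ i, a i ≤ a i + b j

/-! ### the 2 x 2 case -/

theorem two_by_two {k : Type} [Field k] (hF : FlowQG k) (a : R → ℕ) (b : C → ℕ)
    (hab : ∑ i, a i = ∑ j, b j) {i i' : R} {j j' : C} (hi : i ≠ i') (hj : j ≠ j')
    (h1 : Red a b i j) (h2 : Red a b i' j') :
    QG k (fun u : {u : R × C → ℤ // IsMat a b u} => (u.1, (1 : ℤ))) := by
  obtain ⟨ha, hb, h3⟩ := h1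
  obtain ⟨ha', hb', h4⟩ := h2
  have e1 : a i + (a i' + ∑ p ∈ (univ.erase i).erase i', a p) = ∑ p, a p := by
    rw [Finset.add_sum_erase _ a (by simp [Ne.symm hi]), Finset.add_sum_erase _ a (mem_univ i)]
  have e2 : b j + (b j' + ∑ p ∈ (univ.erase j).erase j', b p) = ∑ p, b p := by
    rw [Finset.add_sum_erase _ b (by simp [Ne.symm hj]), Finset.add_sum_erase _ b (mem_univ j)]
  have hR : ∑ p ∈ (univ.erase i).erase i', a p = 0 := by omega
  have hC : ∑ p ∈ (univ.erase j).erase j', b p = 0 := by omega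
  have hR' : ∀ p, p ≠ i → p ≠ i' → a p = 0 := fun p hp hp' =>
    (Finset.sum_eq_zero_iff.1 hR) p (by simp [hp, hp'])
  have hC' : ∀ p, p ≠ j → p ≠ j' → b p = 0 := fun p hp hp' =>
    (Finset.sum_eq_zero_iff.1 hC) p (by simp [hp, hp'])
  have e3 : b j' = a i := by omega
  have e4 : a i' = b j := by omega
  -- the entries of a matrix
  have key : ∀ u : R × C → ℤ, IsMat a b u → u (i, j') = a i - u (i, j) ∧
      u (i', j) = b j - u (i, j) ∧ u (i', j') = u (i, j) := by
    intro u hu
    have f1 : u (i, j) + (u (i, j') + ∑ q ∈ (univ.erase j).erase j', u (i, q)) = a i := by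
      rw [Finset.add_sum_erase _ (fun q => u (i, q)) (by simp [Ne.symm hj]),
        Finset.add_sum_erase _ (fun q => u (i, q)) (mem_univ j), hu.2.1]
    have f2 : u (i, j) + (u (i', j) + ∑ p ∈ (univ.erase i).erase i', u (p, j)) = b j := by
      rw [Finset.add_sum_erase _ (fun p => u (p, j)) (by simp [Ne.symm hi]),
        Finset.add_sum_erase _ (fun p => u (p, j)) (mem_univ i), hu.2.2]
    have f3 : u (i', j) + (u (i', j') + ∑ q ∈ (univ.erase j).erase j', u (i', q)) = a i' := by
      rw [Finset.add_sum_erase _ (fun q => u (i', q)) (by simp [Ne.symm hj]),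
        Finset.add_sum_erase _ (fun q => u (i', q)) (mem_univ j), hu.2.1]
    have g1 : ∀ p, ∑ q ∈ (univ.erase j).erase j', u (p, q) = 0 := fun p =>
      Finset.sum_eq_zero fun q hq => isMat_zero hu (p, q) (Or.inr (hC' q
        (ne_of_mem_erase (mem_of_mem_erase hq)) (ne_of_mem_erase hq)))
    have g2 : ∑ p ∈ (univ.erase i).erase i', u (p, j) = 0 :=
      Finset.sum_eq_zero fun q hq => isMat_zero hu (q, j) (Or.inl (hR' q
        (ne_of_mem_erase (mem_of_mem_erase hq)) (ne_of_mem_erase hq)))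
    rw [g1] at f1 f3
    rw [g2] at f2
    refine ⟨by linarith, by linarith, ?_⟩
    have : (a i' : ℤ) = b j := by exact_mod_cast e4
    linarith
  -- the segment as flows on two parallel arcs
  set l : ℕ := min (a i) (b j) with hl
  have hl0 : 0 < l := lt_min (Nat.pos_of_ne_zero ha) (Nat.pos_of_ne_zero hb)
  set D : Bool → ℤ := fun v => if v then -(l : ℤ) else l with hD
  have hflow : ∀ u : Bool → ℤ, IsFlow (V := Bool) (fun _ : Bool => false) (fun _ => true) D u ↔
      (0 ≤ u false ∧ 0 ≤ u true) ∧ u false + u true = l := by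
    intro u
    unfold IsFlow
    simp only [Bool.forall_bool, Fintype.sum_bool, hD]
    simp
    intro _ _
    constructor
    · rintro ⟨h, -⟩; linarith
    · intro h; constructor <;> linarith
  -- the matrix with parameter t in level n
  let Mt : ℤ → ℤ → R × C → ℤ := fun t n e =>
    if e = (i, j) then t else if e = (i', j') then t else if e = (i, j') then n * a i - t else
      if e = (i', j) then n * b j - t else 0
  have hMt : ∀ u : R × C → ℤ, IsMat a b u → Mt (u (i, j)) 1 = u := by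
    intro u hu
    obtain ⟨k1, k2, k3⟩ := key u hu
    funext e
    simp only [Mt]
    split_ifs with c1 c2 c3 c4
    · rw [c1]
    · rw [c2, k3]
    · rw [c3, k1, one_mul]
    · rw [c4, k2, one_mul]
    · symm
      apply isMat_zero hu e
      by_contra hno
      push Not at hno
      obtain ⟨p, q⟩ := e
      have hp : p = i ∨ p = i' := by
        by_contra hp
        push Not at hp
        exact hno.1 (hR' p hp.1 hp.2)
      have hq : q = j ∨ q = j' := by
        by_contra hq
        push Not at hq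
        exact hno.2 (hC' q hq.1 hq.2)
      rcases hp with rfl | rfl <;> rcases hq with rfl | rfl
      · exact c1 rfl
      · exact c3 rfl
      · exact c4 rfl
      · exact c2 rfl
  have hMt' : ∀ t : ℤ, 0 ≤ t → t ≤ l → IsMat a b (Mt t 1) := by
    intro t ht ht'
    have hla : (l : ℤ) ≤ a i := by exact_mod_cast min_le_left _ _
    have hlb : (l : ℤ) ≤ b j := by exact_mod_cast min_le_right _ _
    have n1 : (i', j') ≠ (i, j) := fun h => hi (Prod.ext_iff.1 h).1.symm
    have n2 : (i, j') ≠ (i, j) := fun h => hj (Prod.ext_iff.1 h).2.symm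
    have n3 : (i, j') ≠ (i', j') := fun h => hi (Prod.ext_iff.1 h).1
    have n4 : (i', j) ≠ (i, j) := fun h => hi (Prod.ext_iff.1 h).1.symm
    have n5 : (i', j) ≠ (i', j') := fun h => hj (Prod.ext_iff.1 h).2
    have n6 : (i', j) ≠ (i, j') := fun h => hi (Prod.ext_iff.1 h).1.symm
    have v1 : Mt t 1 (i, j) = t := if_pos rfl
    have v2 : Mt t 1 (i', j') = t := (if_neg n1).trans (if_pos rfl)
    have v3 : Mt t 1 (i, j') = a i - t := by
      refine (if_neg n2).trans ((if_neg n3).trans ((if_pos rfl).trans ?_))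
      rw [one_mul]
    have v4 : Mt t 1 (i', j) = b j - t := by
      refine (if_neg n4).trans ((if_neg n5).trans ((if_neg n6).trans ((if_pos rfl).trans ?_)))
      rw [one_mul]
    have v5 : ∀ p q, (p ≠ i ∧ p ≠ i') ∨ (q ≠ j ∧ q ≠ j') → Mt t 1 (p, q) = 0 := by
      intro p q h
      simp only [Mt, Prod.mk.injEq]
      rcases h with ⟨h, h'⟩ | ⟨h, h'⟩ <;> simp [h, h']
    refine ⟨fun e => ?_, fun p => ?_, fun q => ?_⟩
    · simp only [Mt]
      split_ifs <;> linarith
    · by_cases hp : p = i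
      · subst hp
        rw [← Finset.add_sum_erase _ _ (mem_univ j), ← Finset.add_sum_erase _ _
          (show j' ∈ univ.erase j by simp [Ne.symm hj]), v1, v3, Finset.sum_eq_zero]
        · ring
        · intro q hq
          exact v5 p q (Or.inr ⟨ne_of_mem_erase (mem_of_mem_erase hq), ne_of_mem_erase hq⟩)
      · by_cases hp' : p = i'
        · subst hp'
          rw [← Finset.add_sum_erase _ _ (mem_univ j), ← Finset.add_sum_erase _ _
            (show j' ∈ univ.erase j by simp [Ne.symm hj]), v4, v2, Finset.sum_eq_zero, e4]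
          · ring
          · intro q hq
            exact v5 p q (Or.inr ⟨ne_of_mem_erase (mem_of_mem_erase hq), ne_of_mem_erase hq⟩)
        · rw [Finset.sum_eq_zero fun q _ => v5 p q (Or.inl ⟨hp, hp'⟩), hR' p hp hp']
          simp
    · by_cases hq : q = j
      · subst hq
        rw [← Finset.add_sum_erase _ _ (mem_univ i), ← Finset.add_sum_erase _ _
          (show i' ∈ univ.erase i by simp [Ne.symm hi]), v1, v4, Finset.sum_eq_zero]
        · ring
        · intro p hp
          exact v5 p q (Or.inl ⟨ne_of_mem_erase (mem_of_mem_erase hp), ne_of_mem_erase hp⟩)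
      · by_cases hq' : q = j'
        · subst hq'
          rw [← Finset.add_sum_erase _ _ (mem_univ i), ← Finset.add_sum_erase _ _
            (show i' ∈ univ.erase i by simp [Ne.symm hi]), v3, v2, Finset.sum_eq_zero, e3]
          · ring
          · intro p hp
            exact v5 p q (Or.inl ⟨ne_of_mem_erase (mem_of_mem_erase hp), ne_of_mem_erase hp⟩)
        · rw [Finset.sum_eq_zero fun p _ => v5 p q (Or.inr ⟨hq, hq'⟩), hC' q hq hq']
          simp
  have hMadd : ∀ t t' n n' : ℤ, Mt (t + t') (n + n') = Mt t n + Mt t' n' := by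
    intro t t' n n'
    funext e
    simp only [Mt, Pi.add_apply]
    split_ifs <;> ring
  refine QG.transfer (k := k) _ (fun u : {u : Bool → ℤ // IsFlow (V := Bool) (fun _ : Bool => false)
      (fun _ => true) D u} => (u.1, (1 : ℤ))) ?_ ?_ ?_ ?_ ?_
      (hF Bool Bool _ _ D false true (by decide) (fun S hS h1 h2 => by
        obtain ⟨v, hv⟩ := hS
        cases v
        · exact absurd hv h1
        · exact absurd hv h2))
  · refine ⟨fun u => ⟨fun v => if v then (l : ℤ) - u.1 (i, j) else u.1 (i, j), (hflow _).2 ?_⟩,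
      fun u => ⟨Mt (u.1 false) 1, ?_⟩, fun u => ?_, fun u => ?_⟩
    · have h0 := u.2.1
      obtain ⟨k1, k2, -⟩ := key u.1 u.2
      have m1 := h0 (i, j)
      have m2 := h0 (i, j')
      have m3 := h0 (i', j)
      have hlm : u.1 (i, j) ≤ l := by
        rw [hl, Nat.cast_min]
        exact le_min (by linarith) (by linarith)
      simp only [Bool.false_eq_true, if_false, if_true]
      exact ⟨⟨m1, by linarith⟩, by ring⟩
    · obtain ⟨⟨m1, m2⟩, m3⟩ := (hflow _).1 u.2
      exact hMt' _ m1 (by linarith)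
    · apply Subtype.ext
      simp only [Bool.false_eq_true, if_false]
      exact hMt u.1 u.2
    · obtain ⟨⟨m1, m2⟩, m3⟩ := (hflow _).1 u.2
      apply Subtype.ext
      funext v
      have v1 : Mt (u.1 false) 1 (i, j) = u.1 false := by simp [Mt]
      cases v
      · simp only [Bool.false_eq_true, if_false, v1]
      · simp only [if_true, v1]
        linarith
  · exact
      { toFun := fun g => (fun v => if v then g.2 * (l : ℤ) - g.1 (i, j) else g.1 (i, j), g.2)
        map_zero' := by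
          ext v
          · cases v <;> simp
          · simp
        map_add' := by
          intro g g'
          ext v
          · cases v <;> simp <;> ring
          · simp }
  · exact
      { toFun := fun g => (Mt (g.1 false) g.2, g.2)
        map_zero' := by
          refine Prod.ext ?_ rfl
          funext e
          simp [Mt]
        map_add' := by
          intro g g'
          refine Prod.ext ?_ rfl
          exact hMadd _ _ _ _ }
  · intro u
    refine Prod.ext ?_ rfl
    funext v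
    cases v <;> simp
  · intro u
    refine Prod.ext ?_ rfl
    exact hMt u.1 u.2

end sec_Reduce

/-! ### From transportation polytopes to flows: the general case -/

section sec_Reduce2

variable {R C : Type} [Fintype R] [Fintype C] [DecidableEq R] [DecidableEq C]

lemma two_blocks {R C : Type} [Fintype R] [Fintype C] [DecidableEq R] [DecidableEq C]
    (z : R → C → ℤ) (S : Finset R) (T : Finset C) :
    ∑ i ∈ S, ∑ j, z i j - ∑ j ∈ T, ∑ i, z i j =
      ∑ i ∈ S, ∑ j ∈ Tᶜ, z i j - ∑ j ∈ T, ∑ i ∈ Sᶜ, z i j := by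
  have e1 : ∑ i ∈ S, ∑ j, z i j = ∑ i ∈ S, ∑ j ∈ T, z i j + ∑ i ∈ S, ∑ j ∈ Tᶜ, z i j := by
    rw [← Finset.sum_add_distrib]
    exact Finset.sum_congr rfl fun i _ => (Finset.sum_add_sum_compl T _).symm
  have e2 : ∑ j ∈ T, ∑ i, z i j = ∑ j ∈ T, ∑ i ∈ S, z i j + ∑ j ∈ T, ∑ i ∈ Sᶜ, z i j := by
    rw [← Finset.sum_add_distrib]
    exact Finset.sum_congr rfl fun j _ => (Finset.sum_add_sum_compl S _).symm
  rw [e1, e2, Finset.sum_comm (s := S) (t := T)]
  ring

theorem generic_case {k : Type} [Field k] (hF : FlowQG k) (a : R → ℕ) (b : C → ℕ)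
    (hab : ∑ i, a i = ∑ j, b j)
    (hsh : ∀ i j i' j', Red a b i j → Red a b i' j' → i = i' ∨ j = j')
    (hbl : ∀ (S : Finset R) (T : Finset C), ∑ i ∈ S, a i = ∑ j ∈ T, b j → 0 < ∑ i ∈ S, a i →
      ∑ i ∈ S, a i < ∑ i, a i → (∀ i j, (i ∈ S ∧ j ∉ T ∨ i ∉ S ∧ j ∈ T) → a i ≠ 0 → b j ≠ 0 →
        a i + b j < ∑ i, a i) → False) :
    QG k (fun u : {u : R × C → ℤ // IsMat a b u} => (u.1, (1 : ℤ))) := by
  classical
  set N : ℕ := ∑ i, a i with hN
  set L : ℤ := (N : ℤ) + 1 with hL
  let ρ : {i // a i ≠ 0} → {j // b j ≠ 0} → ℤ := fun i j => if Red a b i.1 j.1 then 1 else 0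
  have hρ0 : ∀ i j, 0 ≤ ρ i j := fun i j => by
    simp only [ρ]; split_ifs <;> norm_num
  have hρ1 : ∀ i j, ρ i j ≠ 0 → Red a b i.1 j.1 := fun i j h => by
    by_contra hno
    exact h (if_neg hno)
  have hρ2 : ∀ i j, Red a b i.1 j.1 → ρ i j = 1 := fun i j h => if_pos h
  let α : {i // a i ≠ 0} → ℤ := fun i => a i.1 + L * ∑ j, ρ i j
  let β : {j // b j ≠ 0} → ℤ := fun j => b j.1 + L * ∑ i, ρ i j
  -- nondegeneracy
  have hgen : ∀ S : Finset ({i // a i ≠ 0} ⊕ {j // b j ≠ 0}), S.Nonempty → S ≠ univ →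
      ∑ v ∈ S, (Sum.elim α fun j => -β j) v ≠ 0 := by
    intro S hS hS' h0
    set I := S.toLeft with hI
    set J := S.toRight with hJ
    have hSIJ : I.disjSum J = S := Finset.toLeft_disjSum_toRight
    rw [← hSIJ, Finset.sum_disjSum] at h0
    simp only [Sum.elim_inl, Sum.elim_inr, Finset.sum_neg_distrib] at h0
    have hA : ∑ i ∈ I, α i = ((∑ i ∈ I, a i.1 : ℕ) : ℤ) + L * ∑ i ∈ I, ∑ j, ρ i j := by
      simp only [α, Finset.sum_add_distrib, ← Finset.mul_sum]
      push_cast
      rfl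
    have hB : ∑ j ∈ J, β j = ((∑ j ∈ J, b j.1 : ℕ) : ℤ) + L * ∑ j ∈ J, ∑ i, ρ i j := by
      simp only [β, Finset.sum_add_distrib, ← Finset.mul_sum]
      push_cast
      rfl
    have hAN : ∑ i ∈ I, a i.1 ≤ N := by
      have h1 : ∑ i ∈ I, a i.1 = ∑ i ∈ I.map (Function.Embedding.subtype _), a i := by
        rw [Finset.sum_map]; rfl
      rw [h1]
      exact Finset.sum_le_univ_sum_of_nonneg fun _ => Nat.zero_le _
    have hBN : ∑ j ∈ J, b j.1 ≤ N := by
      have h1 : ∑ j ∈ J, b j.1 = ∑ j ∈ J.map (Function.Embedding.subtype _), b j := by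
        rw [Finset.sum_map]; rfl
      rw [hab, h1]
      exact Finset.sum_le_univ_sum_of_nonneg fun _ => Nat.zero_le _
    rw [hA, hB] at h0
    set p := ∑ i ∈ I, ∑ j, ρ i j with hp
    set q := ∑ j ∈ J, ∑ i, ρ i j with hq
    set A := ∑ i ∈ I, a i.1 with hAdef
    set B := ∑ j ∈ J, b j.1 with hBdef
    have hAN' : (A : ℤ) ≤ N := by exact_mod_cast hAN
    have hBN' : (B : ℤ) ≤ N := by exact_mod_cast hBN
    have hA0 : (0 : ℤ) ≤ A := Int.natCast_nonneg _
    have hB0 : (0 : ℤ) ≤ B := Int.natCast_nonneg _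
    have hpq : p = q := by
      rcases lt_trichotomy p q with h | h | h
      · exfalso
        have h1 : 1 ≤ q - p := by omega
        nlinarith
      · exact h
      · exfalso
        have h1 : 1 ≤ p - q := by omega
        nlinarith
    have hAB : A = B := by
      rw [hpq] at h0
      have : (A : ℤ) = B := by linarith
      exact_mod_cast this
    have hblk := two_blocks ρ I J
    rw [← hp, ← hq, hpq, sub_self] at hblk
    have hX0 : 0 ≤ ∑ i ∈ I, ∑ j ∈ Jᶜ, ρ i j :=
      Finset.sum_nonneg fun i _ => Finset.sum_nonneg fun j _ => hρ0 i j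
    -- no redundant entry across the blocks
    have hno1 : ∀ i ∈ I, ∀ j, j ∉ J → ¬ Red a b i.1 j.1 := by
      intro i hi j hj hred
      have hpos : 0 < ∑ i ∈ I, ∑ j ∈ Jᶜ, ρ i j := by
        have h1 : ρ i j ≤ ∑ j ∈ Jᶜ, ρ i j :=
          Finset.single_le_sum (f := fun j => ρ i j) (fun j _ => hρ0 i j) (by simpa using hj)
        have h2 : ∑ j ∈ Jᶜ, ρ i j ≤ ∑ i ∈ I, ∑ j ∈ Jᶜ, ρ i j :=
          Finset.single_le_sum (f := fun i => ∑ j ∈ Jᶜ, ρ i j)
            (fun i _ => Finset.sum_nonneg fun j _ => hρ0 i j) hi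
        rw [hρ2 i j hred] at h1
        linarith
      have hpos' : ∑ j ∈ J, ∑ i ∈ Iᶜ, ρ i j ≠ 0 := by linarith
      obtain ⟨j', hj', h1⟩ := Finset.exists_ne_zero_of_sum_ne_zero hpos'
      obtain ⟨i', hi', h2⟩ := Finset.exists_ne_zero_of_sum_ne_zero h1
      have hi'' : i' ∉ I := by simpa using hi'
      rcases hsh i.1 j.1 i'.1 j'.1 hred (hρ1 i' j' h2) with h | h
      · exact hi'' (Subtype.ext h ▸ hi)
      · exact hj (Subtype.ext h ▸ hj')
    have hno2 : ∀ i, i ∉ I → ∀ j ∈ J, ¬ Red a b i.1 j.1 := by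
      intro i hi j hj hred
      have hpos : 0 < ∑ j ∈ J, ∑ i ∈ Iᶜ, ρ i j := by
        have h1 : ρ i j ≤ ∑ i ∈ Iᶜ, ρ i j :=
          Finset.single_le_sum (f := fun i => ρ i j) (fun i _ => hρ0 i j) (by simpa using hi)
        have h2 : ∑ i ∈ Iᶜ, ρ i j ≤ ∑ j ∈ J, ∑ i ∈ Iᶜ, ρ i j :=
          Finset.single_le_sum (f := fun j => ∑ i ∈ Iᶜ, ρ i j)
            (fun j _ => Finset.sum_nonneg fun i _ => hρ0 i j) hj
        rw [hρ2 i j hred] at h1
        linarith
      have hpos' : ∑ i ∈ I, ∑ j ∈ Jᶜ, ρ i j ≠ 0 := by linarith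
      obtain ⟨i', hi', h1⟩ := Finset.exists_ne_zero_of_sum_ne_zero hpos'
      obtain ⟨j', hj', h2⟩ := Finset.exists_ne_zero_of_sum_ne_zero h1
      have hj'' : j' ∉ J := by simpa using hj'
      exact hno1 i' hi' j' hj'' (hρ1 i' j' h2)
    -- the blocks are trivial
    by_cases hA00 : A = 0
    · have hIe : I = ∅ := by
        rw [Finset.eq_empty_iff_forall_notMem]
        intro i hi
        exact i.2 ((Finset.sum_eq_zero_iff.1 hA00) i hi)
      have hJe : J = ∅ := by
        rw [Finset.eq_empty_iff_forall_notMem]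
        intro j hj
        exact j.2 ((Finset.sum_eq_zero_iff.1 (hAB ▸ hA00)) j hj)
      rw [← hSIJ, hIe, hJe] at hS
      simp at hS
    by_cases hA1 : A = N
    · have hIu : I = univ := by
        rw [Finset.eq_univ_iff_forall]
        intro i
        by_contra hi
        have h1 : A + ∑ i ∈ Iᶜ, a i.1 = ∑ i : {i // a i ≠ 0}, a i.1 := Finset.sum_add_sum_compl I _
        have h2 : ∑ i : {i // a i ≠ 0}, a i.1 = N :=
          (sum_sub (fun i => a i ≠ 0) a (fun j h => not_not.1 h)).symm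
        have h3 : ∑ i ∈ Iᶜ, a i.1 = 0 := by omega
        exact i.2 ((Finset.sum_eq_zero_iff.1 h3) i (by simpa using hi))
      have hJu : J = univ := by
        rw [Finset.eq_univ_iff_forall]
        intro j
        by_contra hj
        have h1 : B + ∑ j ∈ Jᶜ, b j.1 = ∑ j : {j // b j ≠ 0}, b j.1 := Finset.sum_add_sum_compl J _
        have h2 : ∑ j : {j // b j ≠ 0}, b j.1 = ∑ j, b j :=
          (sum_sub (fun j => b j ≠ 0) b (fun j h => not_not.1 h)).symm
        have h3 : ∑ j ∈ Jᶜ, b j.1 = 0 := by omega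
        exact j.2 ((Finset.sum_eq_zero_iff.1 h3) j (by simpa using hj))
      apply hS'
      rw [← hSIJ, hIu, hJu]
      ext v
      rcases v with i | j <;> simp
    refine hbl (I.map (Function.Embedding.subtype _)) (J.map (Function.Embedding.subtype _)) ?_ ?_ ?_ ?_
    · rw [Finset.sum_map, Finset.sum_map]
      exact hAB
    · rw [Finset.sum_map]
      exact Nat.pos_of_ne_zero hA00
    · rw [Finset.sum_map]
      exact lt_of_le_of_ne hAN hA1
    · intro i j hij hi hj
      by_contra hno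
      have hred : Red a b i j := ⟨hi, hj, not_lt.1 hno⟩
      have m1 : i ∈ I.map (Function.Embedding.subtype _) ↔ (⟨i, hi⟩ : {i // a i ≠ 0}) ∈ I := by
        simp [hi]
      have m2 : j ∈ J.map (Function.Embedding.subtype _) ↔ (⟨j, hj⟩ : {j // b j ≠ 0}) ∈ J := by
        simp [hj]
      rw [m1, m2] at hij
      rcases hij with ⟨h, h'⟩ | ⟨h, h'⟩
      · exact hno1 _ h _ h' hred
      · exact hno2 _ h _ h' hred
  -- redundancy
  have hred : ∀ v : {i // a i ≠ 0} → {j // b j ≠ 0} → ℤ, (∀ i, ∑ j, v i j = a i.1) →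
      (∀ j, ∑ i, v i j = b j.1) → (∀ i j, ¬ Red a b i.1 j.1 → 0 ≤ v i j) → ∀ i j, 0 ≤ v i j := by
    intro v hr hc h0 i j
    by_cases h : Red a b i.1 j.1
    · have hall : ∑ p, ∑ q, v p q = N := by
        rw [Finset.sum_congr rfl fun p _ => hr p]
        have h6 : ∑ i : {i // a i ≠ 0}, a i.1 = N :=
          (sum_sub (fun i => a i ≠ 0) a (fun j h => not_not.1 h)).symm
        rw [← h6]
        push_cast
        rfl
      have h1 : ∑ q, v i q + ∑ p ∈ univ.erase i, ∑ q, v p q = N := by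
        rw [← hall]
        exact Finset.add_sum_erase univ (fun p => ∑ q, v p q) (mem_univ i)
      have h2 : ∑ p ∈ univ.erase i, ∑ q, v p q =
          ∑ p ∈ univ.erase i, v p j + ∑ p ∈ univ.erase i, ∑ q ∈ univ.erase j, v p q := by
        rw [← Finset.sum_add_distrib]
        exact Finset.sum_congr rfl fun p _ =>
          (Finset.add_sum_erase univ (fun q => v p q) (mem_univ j)).symm
      have h3 : v i j + ∑ p ∈ univ.erase i, v p j = b j.1 := by
        rw [← hc j]
        exact Finset.add_sum_erase univ (fun p => v p j) (mem_univ i)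
      have h4 : 0 ≤ ∑ p ∈ univ.erase i, ∑ q ∈ univ.erase j, v p q := by
        refine Finset.sum_nonneg fun p hp => Finset.sum_nonneg fun q hq => h0 p q fun hpq => ?_
        rcases hsh _ _ _ _ h hpq with h5 | h5
        · exact (ne_of_mem_erase hp) (Subtype.ext h5.symm)
        · exact (ne_of_mem_erase hq) (Subtype.ext h5.symm)
      have h5 : (N : ℤ) ≤ a i.1 + b j.1 := by exact_mod_cast h.2.2
      rw [hr, h2] at h1
      linarith
    · exact h0 i j h
  let ext : ({i // a i ≠ 0} × {j // b j ≠ 0} → ℤ) → ℤ → R × C → ℤ := fun g n e =>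
    if h : a e.1 ≠ 0 ∧ b e.2 ≠ 0 then
      g (⟨e.1, h.1⟩, ⟨e.2, h.2⟩) - n * (L * ρ ⟨e.1, h.1⟩ ⟨e.2, h.2⟩) else 0
  have ext1 : ∀ g n (i : {i // a i ≠ 0}) (j : {j // b j ≠ 0}),
      ext g n (i.1, j.1) = g (i, j) - n * (L * ρ i j) := by
    intro g n i j
    simp only [ext]
    rw [dif_pos ⟨i.2, j.2⟩]
  have ext2 : ∀ g n e, (a e.1 = 0 ∨ b e.2 = 0) → ext g n e = 0 := by
    intro g n e h
    simp only [ext]
    rw [dif_neg (by tauto)]
  have rowsum : ∀ u : R × C → ℤ, IsMat a b u → ∀ i : {i // a i ≠ 0},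
      ∑ j : {j // b j ≠ 0}, u (i.1, j.1) = a i.1 := by
    intro u hu i
    rw [← hu.2.1 i.1]
    exact (sum_sub (fun j => b j ≠ 0) (fun j => u (i.1, j))
      (fun j hj => isMat_zero hu (i.1, j) (Or.inr (not_not.1 hj)))).symm
  have colsum : ∀ u : R × C → ℤ, IsMat a b u → ∀ j : {j // b j ≠ 0},
      ∑ i : {i // a i ≠ 0}, u (i.1, j.1) = b j.1 := by
    intro u hu j
    rw [← hu.2.2 j.1]
    exact (sum_sub (fun i => a i ≠ 0) (fun i => u (i, j.1))
      (fun i hi => isMat_zero hu (i, j.1) (Or.inl (not_not.1 hi)))).symm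
  have hto : ∀ u : R × C → ℤ, IsMat a b u →
      IsFlow (V := {i // a i ≠ 0} ⊕ {j // b j ≠ 0})
        (fun e : {i // a i ≠ 0} × {j // b j ≠ 0} => Sum.inl e.1) (fun e => Sum.inr e.2)
        (Sum.elim α fun j => -β j) (fun e => u (e.1.1, e.2.1) + 1 * (L * ρ e.1 e.2)) := by
    intro u hu
    rw [isFlow_bip]
    refine ⟨fun e => ?_, fun i => ?_, fun j => ?_⟩
    · have := hu.1 (e.1.1, e.2.1)
      have := hρ0 e.1 e.2
      positivity
    · simp only [one_mul, Finset.sum_add_distrib, rowsum u hu i, ← Finset.mul_sum, α]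
    · simp only [one_mul, Finset.sum_add_distrib, colsum u hu j, ← Finset.mul_sum, β]
  have hfrom : ∀ g : {i // a i ≠ 0} × {j // b j ≠ 0} → ℤ,
      IsFlow (V := {i // a i ≠ 0} ⊕ {j // b j ≠ 0})
        (fun e : {i // a i ≠ 0} × {j // b j ≠ 0} => Sum.inl e.1) (fun e => Sum.inr e.2)
        (Sum.elim α fun j => -β j) g → IsMat a b (ext g 1) := by
    intro g hg
    rw [isFlow_bip] at hg
    obtain ⟨g0, g1, g2⟩ := hg
    have r1 : ∀ i : {i // a i ≠ 0}, ∑ j : {j // b j ≠ 0}, (g (i, j) - 1 * (L * ρ i j)) = a i.1 := by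
      intro i
      simp only [one_mul, Finset.sum_sub_distrib, g1 i, ← Finset.mul_sum, α]
      ring
    have r2 : ∀ j : {j // b j ≠ 0}, ∑ i : {i // a i ≠ 0}, (g (i, j) - 1 * (L * ρ i j)) = b j.1 := by
      intro j
      simp only [one_mul, Finset.sum_sub_distrib, g2 j, ← Finset.mul_sum, β]
      ring
    have r3 := hred (fun i j => g (i, j) - 1 * (L * ρ i j)) r1 r2 (fun i j hno => by
      have : ρ i j = 0 := if_neg hno
      simp only [this, mul_zero, sub_zero]
      exact g0 (i, j))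
    refine ⟨fun e => ?_, fun i => ?_, fun j => ?_⟩
    · by_cases h : a e.1 = 0 ∨ b e.2 = 0
      · rw [ext2 g 1 e h]
      · push Not at h
        have := ext1 g 1 ⟨e.1, h.1⟩ ⟨e.2, h.2⟩
        simp only at this
        rw [this]
        exact r3 _ _
    · by_cases hi : a i = 0
      · rw [hi, Finset.sum_eq_zero fun j _ => ext2 g 1 (i, j) (Or.inl hi)]
        rfl
      · rw [sum_sub (fun j => b j ≠ 0) (fun j => ext g 1 (i, j))
          (fun j hj => ext2 g 1 (i, j) (Or.inr (not_not.1 hj)))]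
        rw [Finset.sum_congr rfl fun j _ => ext1 g 1 ⟨i, hi⟩ j]
        exact r1 ⟨i, hi⟩
    · by_cases hj : b j = 0
      · rw [hj, Finset.sum_eq_zero fun i _ => ext2 g 1 (i, j) (Or.inr hj)]
        rfl
      · rw [sum_sub (fun i => a i ≠ 0) (fun i => ext g 1 (i, j))
          (fun i hi => ext2 g 1 (i, j) (Or.inl (not_not.1 hi)))]
        rw [Finset.sum_congr rfl fun i _ => ext1 g 1 i ⟨j, hj⟩]
        exact r2 ⟨j, hj⟩
  have inv1 : ∀ u : R × C → ℤ, IsMat a b u →
      ext (fun e => u (e.1.1, e.2.1) + 1 * (L * ρ e.1 e.2)) 1 = u := by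
    intro u hu
    funext e
    by_cases h : a e.1 = 0 ∨ b e.2 = 0
    · rw [ext2 (fun e => u (e.1.1, e.2.1) + 1 * (L * ρ e.1 e.2)) 1 e h, isMat_zero hu e h]
    · push Not at h
      have := ext1 (fun e => u (e.1.1, e.2.1) + 1 * (L * ρ e.1 e.2)) 1 ⟨e.1, h.1⟩ ⟨e.2, h.2⟩
      simp only at this
      rw [this]
      ring
  -- there are nonzero margins
  by_cases hN0 : N = 0
  · have ha0 : ∀ i, a i = 0 := fun i => (Finset.sum_eq_zero_iff.1 hN0) i (mem_univ i)
    have : Subsingleton {u : R × C → ℤ // IsMat a b u} := ⟨fun u v => Subtype.ext (funext fun e => by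
      rw [isMat_zero u.2 e (Or.inl (ha0 e.1)), isMat_zero v.2 e (Or.inl (ha0 e.1))])⟩
    exact QG.of_subsingleton _ fun _ => rfl
  obtain ⟨i0', -, hi0⟩ := Finset.exists_ne_zero_of_sum_ne_zero hN0
  obtain ⟨j0', -, hj0⟩ := Finset.exists_ne_zero_of_sum_ne_zero (hab ▸ hN0)
  set i0 : {i // a i ≠ 0} := ⟨i0', hi0⟩
  set j0 : {j // b j ≠ 0} := ⟨j0', hj0⟩
  refine QG.transfer (k := k) _ (fun u : {u : {i // a i ≠ 0} × {j // b j ≠ 0} → ℤ //
      IsFlow (V := {i // a i ≠ 0} ⊕ {j // b j ≠ 0})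
        (fun e : {i // a i ≠ 0} × {j // b j ≠ 0} => Sum.inl e.1) (fun e => Sum.inr e.2)
        (Sum.elim α fun j => -β j) u} => (u.1, (1 : ℤ))) ?_ ?_ ?_ ?_ ?_
    (hF _ _ _ _ _ (Sum.inl i0) (Sum.inr j0) (by simp) (fun S hS h1 _ => hgen S hS (fun h => by
      rw [h] at h1
      exact h1 (mem_univ _))))
  · refine ⟨fun u => ⟨_, hto u.1 u.2⟩, fun g => ⟨_, hfrom g.1 g.2⟩, fun u => ?_, fun g => ?_⟩
    · exact Subtype.ext (inv1 u.1 u.2)
    · apply Subtype.ext
      funext e
      have := ext1 g.1 1 e.1 e.2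
      simp only at this ⊢
      rw [this]
      ring
  · exact
      { toFun := fun g => (fun e => g.1 (e.1.1, e.2.1) + g.2 * (L * ρ e.1 e.2), g.2)
        map_zero' := by
          refine Prod.ext ?_ rfl
          funext e
          simp
        map_add' := by
          intro g g'
          refine Prod.ext ?_ rfl
          funext e
          simp only [Prod.fst_add, Prod.snd_add, Pi.add_apply]
          ring }
  · exact
      { toFun := fun g => (ext g.1 g.2, g.2)
        map_zero' := by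
          refine Prod.ext ?_ rfl
          funext e
          simp [ext]
        map_add' := by
          intro g g'
          refine Prod.ext ?_ rfl
          funext e
          simp only [Prod.fst_add, Prod.snd_add, Pi.add_apply, ext]
          split_ifs
          · ring
          · simp }
  · intro u
    rfl
  · intro u
    exact Prod.ext (inv1 u.1 u.2) rfl

end sec_Reduce2

/-! ### Conclusion -/

section sec_Final

open Defs

theorem flowQG (k : Type) [Field k] : FlowQG k := by
  intro V A _ _ _ _ s r D t h hth hND φ hφ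
  exact Pool.Agent.T16.quadGen V A s r D ⟨t, h, hth, hND⟩ (IsFlow s r D) (fun u => Iff.rfl) k φ hφ

/-- change of the predicate -/
lemma QG.congr {k : Type} [Field k] {ι : Type} {S S' : (ι → ℤ) → Prop} (h : ∀ u, S u ↔ S' u)
    (hq : QG k (fun u : {u // S' u} => (u.1, (1 : ℤ)))) :
    QG k (fun u : {u // S u} => (u.1, (1 : ℤ))) :=
  QG.transfer _ _ (Equiv.subtypeEquivRight h) (AddMonoidHom.id _) (AddMonoidHom.id _)
    (fun _ => rfl) (fun _ => rfl) hq

theorem transport {k : Type} [Field k] {R C : Type} [Fintype R] [Fintype C] [DecidableEq R]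
    [DecidableEq C] (a : R → ℕ) (b : C → ℕ)
    (hs : ∀ x ∈ Set.extremePoints ℝ (TP (fun i => (a i : ℝ)) (fun j => (b j : ℝ))),
      ∃ (w : R × C → R × C → ℝ) (I : Finset (R × C)), LinearIndepOn ℝ w (I : Set (R × C)) ∧
        ConeGen (TP (fun i => (a i : ℝ)) (fun j => (b j : ℝ))) x w I) :
    QG k (fun u : {u : R × C → ℤ // IsMat a b u} => (u.1, (1 : ℤ))) := by
  by_cases hab : ∑ i, a i = ∑ j, b j
  · by_cases hsh : ∀ i j i' j', Red a b i j → Red a b i' j' → i = i' ∨ j = j'
    · refine generic_case (flowQG k) a b hab hsh fun S T hST h0 h1 hr => ?_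
      refine no_block (N := ((∑ i, a i : ℕ) : ℝ)) (fun i => Nat.cast_nonneg _)
        (fun j => Nat.cast_nonneg _) ?_ ?_ hs S T ?_ ?_ ?_ ?_
      · push_cast; rfl
      · rw [hab]; push_cast; rfl
      · exact_mod_cast hST
      · exact_mod_cast h0
      · exact_mod_cast h1
      · intro i j hij hi hj
        exact_mod_cast hr i j hij (by exact_mod_cast hi) (by exact_mod_cast hj)
    · push Not at hsh
      obtain ⟨i, j, i', j', h1, h2, hi, hj⟩ := hsh
      exact two_by_two (flowQG k) a b hab hi hj h1 h2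
  · have : Subsingleton {u : R × C → ℤ // IsMat a b u} := ⟨fun u _ => by
      exfalso
      apply hab
      have h1 : ∑ i, ∑ j, u.1 (i, j) = ((∑ i, a i : ℕ) : ℤ) := by
        push_cast
        exact Finset.sum_congr rfl fun i _ => u.2.2.1 i
      have h2 : ∑ j, ∑ i, u.1 (i, j) = ((∑ j, b j : ℕ) : ℤ) := by
        push_cast
        exact Finset.sum_congr rfl fun j _ => u.2.2.2 j
      rw [Finset.sum_comm, h2] at h1
      exact_mod_cast h1.symm⟩
    exact QG.of_subsingleton _ fun _ => rfl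

theorem smooth_gen {ι : Type} [Fintype ι] [DecidableEq ι] {P : Set (ι → ℝ)} (h : Smooth P) :
    ∀ x ∈ Set.extremePoints ℝ P, ∃ (w : ι → ι → ℝ) (I : Finset ι),
      LinearIndepOn ℝ w (I : Set ι) ∧ ConeGen P x w I := by
  intro x hx
  obtain ⟨w, hw, I, hI⟩ := h x hx
  refine ⟨fun i j => (w i j : ℝ), I, ?_, hI⟩
  have h1 : IsUnit ((Matrix.of w).map (Int.castRingHom ℝ)) := by
    rw [Matrix.isUnit_iff_isUnit_det, ← RingHom.mapMatrix_apply, ← RingHom.map_det]
    exact hw.map _
  have h2 := Matrix.linearIndependent_rows_of_isUnit h1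
  exact h2.linearIndepOn (I : Set ι)

theorem transportation {m n : ℕ} (a : Fin m → ℕ) (b : Fin n → ℕ)
    (h : Smooth (Transportation a b)) (k : Type) [Field k] : QuadGen (Transportation a b) k :=
  QG.congr (fun _ => isMat_iff) (transport a b (smooth_gen h))

theorem flows {V A : Type} [Fintype V] [DecidableEq V] [Fintype A] [DecidableEq A] (s r : A → V)
    (D : V → ℤ) (t h : V) (hth : t ≠ h)
    (hD : ∀ S : Finset V, S.Nonempty → t ∉ S → h ∉ S → ∑ v ∈ S, D v ≠ 0) (k : Type) [Field k] :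
    QuadGen (Flows s r D) k := by
  refine QG.congr (fun u => ?_) (flowQG k V A s r D t h hth hD)
  simp only [Flows, IsFlow, Set.mem_ofPred_eq]
  refine and_congr (forall_congr' fun e => by exact_mod_cast Iff.rfl) (forall_congr' fun v => ?_)
  rw [← Finset.sum_sub_distrib]
  have : ∀ e, ((if s e = v then (u e : ℝ) else 0) - (if r e = v then (u e : ℝ) else 0)) =
      ((u e * ((if s e = v then 1 else 0) - (if r e = v then 1 else 0)) : ℤ) : ℝ) := by
    intro e
    split_ifs <;> simp
  rw [Finset.sum_congr rfl fun e _ => this e]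
  constructor
  · intro h; exact_mod_cast h
  · intro h; exact_mod_cast h

end sec_Final

end Pool.Agent.Lib_helper65.T16
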